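import Pool.Agent.PPE.Main
import Pool.Agent.PPC.NeoDer

/-!
# Orders of planar finite neofields that are not prime powers
-/

set_option autoImplicit false

namespace Pool.Agent.Results.MP_46f6e9_co.AlmostAll

/-- `K` with the operations `add`, `mul` and the zero element `zero` is a planar neofield with
commutative multiplication. -/
structure PlanarNeofield (K : Type) (add mul : K → K → K) (zero : K) : Prop where
  zero_add_add_zero : ∀ a, add zero a = a ∧ add a zero = a
  right_div : ∀ a b, ∃! x, add a x = b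
  left_div : ∀ a b, ∃! y, add y a = b
  mul_ne_zero : ∀ a b, a ≠ zero → b ≠ zero → mul a b ≠ zero
  mul_assoc : ∀ a b c, a ≠ zero → b ≠ zero → c ≠ zero → mul (mul a b) c = mul a (mul b c)
  one_inv : ∃ e, e ≠ zero ∧ (∀ a, a ≠ zero → mul e a = a ∧ mul a e = a) ∧
    ∀ a, a ≠ zero → ∃ b, b ≠ zero ∧ mul a b = e ∧ mul b a = e
  right_distrib : ∀ a b c, mul (add a b) c = add (mul a c) (mul b c)
  left_distrib : ∀ a b c, mul c (add a b) = add (mul c a) (mul c b)
  mul_comm : ∀ a b, mul a b = mul b a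
  planar : ∃ IsLine : Set (K × K) → Prop,
    (∀ L : Set (K × K), IsLine L ↔
      ((∃ m k : K, L = {p : K × K | p.2 = add (mul p.1 m) k}) ∨
        ∃ a : K, L = {p : K × K | p.1 = a})) ∧
    (∀ P Q : K × K, P ≠ Q → ∃! L : Set (K × K), IsLine L ∧ P ∈ L ∧ Q ∈ L) ∧
    (∀ (L : Set (K × K)) (P : K × K), IsLine L → P ∉ L →
      ∃! M : Set (K × K), IsLine M ∧ P ∈ M ∧ Disjoint M L) ∧
    (∃ P Q R : K × K, ¬ ∃ L : Set (K × K), IsLine L ∧ P ∈ L ∧ Q ∈ L ∧ R ∈ L)

open Classical in
/-- For every `ε > 0` there is `C` such that for every `x ≥ 2` at most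
`C x / (log x) ^ (3 / 2 - ε)` integers `n` with `2 ≤ n ≤ x` are orders of planar neofields with
commutative multiplication and are not prime powers. -/
theorem result (ε : ℝ) (hε : 0 < ε) :
    ∃ C : ℝ, ∀ x : ℕ, 2 ≤ x →
      (((Finset.Icc 2 x).filter (fun n : ℕ =>
        (∃ (K : Type) (_ : Finite K) (add mul : K → K → K) (zero : K),
          PlanarNeofield K add mul zero ∧ Nat.card K = n) ∧
        ¬ IsPrimePow n)).card : ℝ) ≤
        C * x / (Real.log x) ^ (3 / 2 - ε) := by
  refine Pool.Agent.PPE.main ?_ hε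
  rintro n ⟨K, _, add, mul, zero, ⟨h1, h2, h3, h4, h5, h6, h7, h8, hc, IsLine, h9, h10, h11, -⟩,
    rfl⟩
  exact Pool.Agent.PPC.exists_nds add mul zero h1 h2 h3 h4 h5 h6 h7 h8 hc IsLine h9 h10 h11

end Pool.Agent.Results.MP_46f6e9_co.AlmostAll
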